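import Pool.Agent.Helper69.SB.Lat
import Pool.Agent.Helper18.CL.Defs

/-!
# Symbols of degree `ℓ`: the short element of the symbol algebra
-/

set_option autoImplicit false

namespace Pool.Agent.Helper69.SB

open NumberField Module Finset Polynomial Pool.Agent.Helper16.CB Pool.Agent.Helper35.CB

/-- coefficients of the characteristic polynomial of a matrix with bounded entries -/
theorem coeff_bound {ℓ : ℕ} (M : Matrix (Fin ℓ) (Fin ℓ) ℂ) (B : ℝ)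
    (hM : ∀ i j, ‖M i j‖ ≤ B) (k : ℕ) :
    ‖M.charpoly.coeff k‖ ≤ (ℓ * B) ^ (ℓ - k) * ℓ.choose k := by
  have h1 := coeff_le_of_roots_le (p := M.charpoly) (f := RingHom.id ℂ) (B := ℓ * B) k
    M.charpoly_monic (IsAlgClosed.splits _) (by
      intro μ hμ
      rw [Polynomial.map_id, mem_roots M.charpoly_monic.ne_zero] at hμ
      have h2 : Module.End.HasEigenvalue (Matrix.toLin' M) μ := by
        rw [Module.End.hasEigenvalue_iff_isRoot_charpoly, LinearMap.charpoly_def]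
        rw [← LinearMap.charpoly_def, Matrix.charpoly_toLin']
        exact hμ
      obtain ⟨i, hi⟩ := eigenvalue_mem_ball h2
      rw [Metric.mem_closedBall, dist_eq_norm] at hi
      have h3 : ‖μ‖ ≤ ‖μ - M i i‖ + ‖M i i‖ := by
        have := norm_add_le (μ - M i i) (M i i)
        rwa [sub_add_cancel] at this
      have h4 : ∑ j ∈ univ.erase i, ‖M i j‖ + ‖M i i‖ = ∑ j, ‖M i j‖ :=
        sum_erase_add _ _ (mem_univ i)
      have h5 : ∑ j, ‖M i j‖ ≤ ℓ * B := by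
        refine (sum_le_sum fun j _ => hM i j).trans (le_of_eq ?_)
        rw [sum_const, card_univ, Fintype.card_fin, nsmul_eq_mul]
      linarith)
  rw [Polynomial.map_id, Matrix.charpoly_natDegree_eq_dim, Fintype.card_fin] at h1
  exact h1

variable {ℓ : ℕ} [NeZero ℓ]

/-- entries of the matrix -/
theorem entry_bound {L : Type*} [Field L] [NumberField L] (φ : L →+* ℂ) (c : ℝ) (hc : 1 ≤ c)
    {ζ a b : 𝓞 L} (hζ : ζ ^ ℓ = 1)
    (ha : ‖φ a‖ ≤ c * sz ℓ a ^ ℓ) (hb : ‖φ b‖ ≤ c * sz ℓ b ^ ℓ) (ha0 : a ≠ 0) (hb0 : b ≠ 0)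
    (z : Fin ℓ → Fin ℓ → 𝓞 L)
    (hz : ∀ r s : Fin ℓ, ‖φ (z r s : L)‖ ≤
        sz ℓ a ^ (ℓ - (r : ℕ)) * sz ℓ b ^ (ℓ - (s : ℕ)) * SS L)
    {α β : ℂ} (hα : α ^ ℓ = φ a) (hβ : β ^ ℓ = φ b) (p q : Fin ℓ) :
    ‖mt (φ ζ) α β (fun r s => φ (z r s)) p q‖ ≤
      ℓ * (c ^ (2 * ℓ) * SS L * (sz ℓ a ^ ℓ * sz ℓ b ^ ℓ)) := by
  have hℓ : 0 < ℓ := Nat.pos_of_ne_zero (NeZero.ne ℓ)
  have hA := one_le_sz (ℓ := ℓ) ha0
  have hB := one_le_sz (ℓ := ℓ) hb0
  have hS := SS_nonneg L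
  have hroot : ∀ {γ : ℂ} {x : 𝓞 L} {A : ℝ}, 1 ≤ A → γ ^ ℓ = φ x → ‖φ x‖ ≤ c * A ^ ℓ →
      ‖γ‖ ≤ c * A := by
    intro γ x A hA hγ hx
    have h1 : ‖γ‖ ^ ℓ ≤ (c * A) ^ ℓ := by
      rw [← norm_pow, hγ, mul_pow]
      refine hx.trans (mul_le_mul_of_nonneg_right ?_ (by positivity))
      exact le_self_pow₀ hc hℓ.ne'
    exact le_of_pow_le_pow_left₀ hℓ.ne' (by positivity) h1
  have h1 : ‖α‖ ≤ c * sz ℓ a := hroot hA hα ha
  have h2 : ‖β‖ ≤ c * sz ℓ b := hroot hB hβ hb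
  have hζn : ‖φ ζ‖ = 1 := by
    have h3 : ‖φ ζ‖ ^ ℓ = 1 := by
      rw [← norm_pow, ← map_pow]
      have h4 : (ζ : L) ^ ℓ = 1 := by exact_mod_cast congrArg (algebraMap (𝓞 L) L) hζ
      rw [h4, map_one, norm_one]
    exact (pow_eq_one_iff_of_nonneg (norm_nonneg _) hℓ.ne').1 h3
  unfold mt xr
  rw [norm_mul, norm_pow]
  have h5 : ‖α‖ ^ ((q - p : Fin ℓ) : ℕ) ≤ c ^ ℓ * sz ℓ a ^ ((q - p : Fin ℓ) : ℕ) := by
    refine (pow_le_pow_left₀ (norm_nonneg _) h1 _).trans ?_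
    rw [mul_pow]
    exact mul_le_mul_of_nonneg_right (pow_le_pow_right₀ hc (q - p : Fin ℓ).2.le) (by positivity)
  have h6 : ‖∑ s : Fin ℓ, φ (z (q - p) s) * (φ ζ ^ (p : ℕ) * β) ^ (s : ℕ)‖ ≤
      ℓ * (sz ℓ a ^ (ℓ - ((q - p : Fin ℓ) : ℕ)) * (c ^ ℓ * SS L * sz ℓ b ^ ℓ)) := by
    refine (norm_sum_le _ _).trans ?_
    have h7 : ∀ s ∈ (univ : Finset (Fin ℓ)),
        ‖φ (z (q - p) s) * (φ ζ ^ (p : ℕ) * β) ^ (s : ℕ)‖ ≤
        sz ℓ a ^ (ℓ - ((q - p : Fin ℓ) : ℕ)) * (c ^ ℓ * SS L * sz ℓ b ^ ℓ) := by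
      intro s _
      rw [norm_mul, norm_pow, norm_mul, norm_pow, hζn, one_pow, one_mul]
      have h8 : ‖β‖ ^ (s : ℕ) ≤ c ^ ℓ * sz ℓ b ^ (s : ℕ) := by
        refine (pow_le_pow_left₀ (norm_nonneg _) h2 _).trans ?_
        rw [mul_pow]
        exact mul_le_mul_of_nonneg_right (pow_le_pow_right₀ hc s.2.le) (by positivity)
      calc ‖φ (z (q - p) s)‖ * ‖β‖ ^ (s : ℕ)
          ≤ (sz ℓ a ^ (ℓ - ((q - p : Fin ℓ) : ℕ)) * sz ℓ b ^ (ℓ - (s : ℕ)) * SS L) *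
            (c ^ ℓ * sz ℓ b ^ (s : ℕ)) := by
              apply mul_le_mul (hz _ _) h8 (by positivity) (by positivity)
        _ = sz ℓ a ^ (ℓ - ((q - p : Fin ℓ) : ℕ)) * (c ^ ℓ * SS L *
            (sz ℓ b ^ (ℓ - (s : ℕ)) * sz ℓ b ^ (s : ℕ))) := by ring
        _ = _ := by
              rw [← pow_add, Nat.sub_add_cancel s.2.le]
    refine (sum_le_sum h7).trans (le_of_eq ?_)
    rw [sum_const, card_univ, Fintype.card_fin, nsmul_eq_mul]
  calc ‖α‖ ^ ((q - p : Fin ℓ) : ℕ) * ‖∑ s : Fin ℓ, φ (z (q - p) s) *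
        (φ ζ ^ (p : ℕ) * β) ^ (s : ℕ)‖
      ≤ (c ^ ℓ * sz ℓ a ^ ((q - p : Fin ℓ) : ℕ)) *
        (ℓ * (sz ℓ a ^ (ℓ - ((q - p : Fin ℓ) : ℕ)) * (c ^ ℓ * SS L * sz ℓ b ^ ℓ))) :=
        mul_le_mul h5 h6 (norm_nonneg _) (by positivity)
    _ = ℓ * (c ^ ℓ * c ^ ℓ * SS L * ((sz ℓ a ^ ((q - p : Fin ℓ) : ℕ) *
        sz ℓ a ^ (ℓ - ((q - p : Fin ℓ) : ℕ))) * sz ℓ b ^ ℓ)) := by ring
    _ = _ := by
        rw [← pow_add, ← pow_add, Nat.add_sub_cancel' (q - p : Fin ℓ).2.le, two_mul]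

/-- the coefficients at an embedding -/
theorem coeff_emb {L : Type*} [Field L] [NumberField L] (φ : L →+* ℂ) {ζ a b : 𝓞 L}
    (hζ : IsPrimitiveRoot ζ ℓ) (ha0 : a ≠ 0) (z : Fin ℓ → Fin ℓ → 𝓞 L)
    {α β : ℂ} (hα : α ^ ℓ = φ a) (hβ : β ^ ℓ = φ b) (k : ℕ) :
    φ ((Ek ζ a z k).eval b : 𝓞 L) =
      (mt (φ ζ) α β (fun r s => φ (z r s))).charpoly.coeff k := by
  have hℓ : 0 < ℓ := Nat.pos_of_ne_zero (NeZero.ne ℓ)
  let : Algebra (𝓞 L) ℂ := (φ.comp (algebraMap (𝓞 L) L)).toAlgebra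
  have hα0 : α ≠ 0 := by
    rintro rfl
    rw [zero_pow hℓ.ne'] at hα
    exact ha0 (RingOfIntegers.ext ((map_eq_zero φ).1 hα.symm))
  have h1 := coeff_m1' (S := ℂ) hζ ha0 β z k
  have h2 : ∀ x : 𝓞 L, algebraMap (𝓞 L) ℂ x = φ x := fun x => rfl
  simp only [h2] at h1
  rw [← hα, m1_mt _ _ _ hα0] at h1
  rw [h1, hβ, ← h2, ← h2, aeval_algebraMap_apply]
  rfl

/-- finite set of polynomials -/
theorem fin_polys {L : Type*} [Field L] (ℓ : ℕ) (W : Finset L) :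
    ∃ FS : Finset L[X], (∀ f ∈ FS, f.Monic ∧ f.natDegree = ℓ) ∧
      ∀ g : ℕ → L, (∀ k < ℓ, g k ∈ W) → ∃ f ∈ FS, (∀ k < ℓ, f.coeff k = g k) ∧
        f.Monic ∧ f.natDegree = ℓ := by
  classical
  let F : (Fin ℓ → L) → L[X] := fun g => X ^ ℓ + ∑ k : Fin ℓ, C (g k) * X ^ (k : ℕ)
  have hdeg : ∀ g : Fin ℓ → L,
      (∑ k : Fin ℓ, C (g k) * X ^ (k : ℕ)).degree < ((ℓ : ℕ) : WithBot ℕ) :=
    fun g => degree_sum_fin_lt g
  have hm : ∀ g, (F g).Monic := fun g => monic_X_pow_add (hdeg g)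
  have hn : ∀ g, (F g).natDegree = ℓ := by
    intro g
    have h1 : (F g).degree = ((ℓ : ℕ) : WithBot ℕ) := by
      change (X ^ ℓ + ∑ k : Fin ℓ, C (g k) * X ^ (k : ℕ)).degree = _
      rw [degree_add_eq_left_of_degree_lt (by rw [degree_X_pow]; exact hdeg g), degree_X_pow]
    exact natDegree_eq_of_degree_eq_some h1
  refine ⟨(Fintype.piFinset fun _ : Fin ℓ => W).image F, ?_, ?_⟩
  · intro f hf
    obtain ⟨g, _, rfl⟩ := mem_image.1 hf
    exact ⟨hm g, hn g⟩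
  · intro g hg
    refine ⟨F fun k => g k, mem_image_of_mem _ (Fintype.mem_piFinset.2 fun k => hg k k.2), ?_,
      hm _, hn _⟩
    intro k hk
    simp only [F, coeff_add, coeff_X_pow, finsetSum_coeff, coeff_C_mul]
    rw [if_neg hk.ne, zero_add]
    rw [sum_eq_single ⟨k, hk⟩]
    · simp
    · intro j _ hj
      rw [if_neg, mul_zero]
      intro h
      exact hj (Fin.ext h.symm)
    · intro h
      exact absurd (mem_univ _) h

/-- divisibility by powers -/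
theorem pow_dvd_of_mem {R : Type*} [CommRing R] (I : Ideal R) (d N0 : R)
    (h : ∀ x ∈ I, d ∣ N0 * x) (m : ℕ) : ∀ x ∈ I ^ m, d ^ m ∣ N0 ^ m * x := by
  have h1 : Ideal.span {N0} * I ≤ Ideal.span {d} := by
    rw [Ideal.mul_le]
    intro r hr s hs
    obtain ⟨c, rfl⟩ := Ideal.mem_span_singleton'.1 hr
    rw [Ideal.mem_span_singleton, mul_assoc]
    exact (h s hs).mul_left c
  intro x hx
  have h2 : N0 ^ m * x ∈ (Ideal.span {N0} * I) ^ m := by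
    rw [mul_pow, Ideal.span_singleton_pow]
    exact Ideal.mul_mem_mul (Ideal.mem_span_singleton_self _) hx
  have h3 := Ideal.pow_right_mono h1 m h2
  rwa [Ideal.span_singleton_pow, Ideal.mem_span_singleton] at h3

/-- **R4** -/
theorem core4 (L : Type) [Field L] [NumberField L] (l : ℕ) [NeZero l] (hl : l.Prime) (ζ : 𝓞 L)
    (hζ : IsPrimitiveRoot ζ l) (c : ℝ) (N0 : ℕ) (hN0 : N0 ≠ 0) :
    ∃ FS : Finset L[X], (∀ f ∈ FS, f.Monic ∧ f.natDegree = l) ∧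
      ∀ a b : 𝓞 L, a ≠ 0 → b ≠ 0 → Bal c a → Bal c b →
      ∀ (AA BB : Ideal (𝓞 L)) (h h' : 𝓞 L), IsCoprime AA BB → a ∈ AA → b ∈ BB →
        h ^ l - b ∈ AA ^ l → h' ^ l - a ∈ BB ^ l →
        (∀ x ∈ AA * BB, a * b ∣ (N0 : 𝓞 L) * x) →
        ∃ z : Fin l → Fin l → 𝓞 L, z ≠ 0 ∧ z 0 0 = 0 ∧ ∃ f ∈ FS,
          ∀ (E : Type) [Field E] [Algebra L E] (β : E), β ^ l = algebraMap L E b →
            (m1 (algebraMap L E ζ) (algebraMap L E a) β
              (fun r s => algebraMap L E (z r s))).charpoly =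
              (f.scaleRoots ((a * b : 𝓞 L) : L)).map (algebraMap L E) := by
  classical
  have hl1 : 1 < l := hl.one_lt
  have hl0 : 0 < l := hl.pos
  obtain ⟨ζ', hh⟩ : ∃ ζ' : 𝓞 L, ζ * ζ' = 1 := by
    refine ⟨ζ ^ (l - 1), ?_⟩
    rw [← pow_succ', Nat.sub_add_cancel hl0, hζ.pow_eq_one]
  set c' : ℝ := max c 1 with hc'
  have hc1 : 1 ≤ c' := le_max_right _ _
  have hS := SS_nonneg L
  set Q : ℝ := l * (l * (c' ^ (2 * l) * SS L * c' ^ 2)) with hQ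
  have hQ0 : 0 ≤ Q := by positivity
  set C0 : ℝ := (N0 : ℝ) ^ l * ((max Q 1) ^ l * 2 ^ l) with hC0
  have hfin := Pool.Agent.Helper69.CB.finite_bdd L C0
  set W : Finset L := (hfin.toFinset.image fun w : 𝓞 L => (w : L) / (N0 : L) ^ l) with hW
  obtain ⟨FS, hFS, hFS'⟩ := fin_polys l W
  refine ⟨FS, hFS, ?_⟩
  intro a b ha hb hBa hBb AA BB h h' hcop haA hbB h1 h2 hdiv
  obtain ⟨z, hz0, hz, cA, cB, hzs⟩ := exists_short hl1 hζ hh ha hb haA hbB h h'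
  have hmem := mem_pow_mul hζ hh ha hb AA BB hcop haA hbB h1 h2 z cA cB
  set e : ℕ → 𝓞 L := fun k => (Ek ζ a z k).eval b with he
  have hab : (a : L) * (b : L) ≠ 0 := by
    refine mul_ne_zero ?_ ?_
    · exact fun h0 => ha (RingOfIntegers.ext h0)
    · exact fun h0 => hb (RingOfIntegers.ext h0)
  have hNL : (N0 : L) ≠ 0 := by exact_mod_cast hN0
  -- the bounded integers
  have hw : ∀ k, k < l → ∃ w : 𝓞 L, (a * b) ^ (l - k) * w = (N0 : 𝓞 L) ^ l * e k := by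
    intro k hk
    obtain ⟨w, hw⟩ := pow_dvd_of_mem (AA * BB) (a * b) (N0 : 𝓞 L) hdiv (l - k) (e k) (hmem k)
    refine ⟨(N0 : 𝓞 L) ^ k * w, ?_⟩
    calc (a * b) ^ (l - k) * ((N0 : 𝓞 L) ^ k * w)
        = (N0 : 𝓞 L) ^ k * ((a * b) ^ (l - k) * w) := by ring
      _ = (N0 : 𝓞 L) ^ k * (N0 : 𝓞 L) ^ (l - k) * e k := by rw [← hw]; ring
      _ = _ := by rw [← pow_add, Nat.add_sub_cancel' hk.le]
  choose! w hw using hw
  have hbd : ∀ k, k < l → ∀ φ : L →+* ℂ, ‖φ (w k)‖ ≤ C0 := by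
    intro k hk φ
    obtain ⟨α, hα⟩ := IsAlgClosed.exists_pow_nat_eq (φ a) hl0
    obtain ⟨β, hβ⟩ := IsAlgClosed.exists_pow_nat_eq (φ b) hl0
    have hbal : ∀ x : 𝓞 L, Bal c x → ‖φ x‖ ≤ c' * sz l x ^ l ∧ sz l x ^ l ≤ c' * ‖φ x‖ := by
      intro x hx
      rw [sz_pow hl0]
      obtain ⟨e1, e2⟩ := hx φ
      constructor
      · exact e1.trans (mul_le_mul_of_nonneg_right (le_max_left _ _) (by positivity))
      · exact e2.trans (mul_le_mul_of_nonneg_right (le_max_left _ _) (norm_nonneg _))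
    obtain ⟨a1, a2⟩ := hbal a hBa
    obtain ⟨b1, b2⟩ := hbal b hBb
    have h3 := coeff_bound (mt (φ ζ) α β (fun r s => φ (z r s))) _
      (entry_bound φ c' hc1 hζ.pow_eq_one a1 b1 ha hb z (fun r s => hzs r s φ) hα hβ) k
    rw [← coeff_emb φ hζ ha z hα hβ k] at h3
    set D : ℝ := ‖φ ((a : L) * b)‖ with hD
    have hD0 : 0 < D := by
      rw [hD, norm_pos_iff]
      exact fun h0 => hab ((map_eq_zero φ).1 h0)
    have h4 : sz l a ^ l * sz l b ^ l ≤ c' ^ 2 * D := by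
      have hA := one_le_sz (ℓ := l) ha
      have hB := one_le_sz (ℓ := l) hb
      calc sz l a ^ l * sz l b ^ l ≤ (c' * ‖φ a‖) * (c' * ‖φ b‖) :=
            mul_le_mul a2 b2 (by positivity) (by positivity)
        _ = _ := by rw [hD, map_mul, norm_mul]; ring
    have h5 : (l : ℝ) * (l * (c' ^ (2 * l) * SS L * (sz l a ^ l * sz l b ^ l))) ≤ Q * D := by
      calc (l : ℝ) * (l * (c' ^ (2 * l) * SS L * (sz l a ^ l * sz l b ^ l)))
          ≤ l * (l * (c' ^ (2 * l) * SS L * (c' ^ 2 * D))) := by gcongr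
        _ = _ := by rw [hQ]; ring
    have h6 : ‖φ (e k : L)‖ ≤ (Q * D) ^ (l - k) * l.choose k := by
      refine h3.trans ?_
      have hA := one_le_sz (ℓ := l) ha
      have hB := one_le_sz (ℓ := l) hb
      gcongr
    have h7 : D ^ (l - k) * ‖φ (w k)‖ = (N0 : ℝ) ^ l * ‖φ (e k : L)‖ := by
      have h8 := congrArg (fun x : 𝓞 L => ‖φ (x : L)‖) (hw k hk)
      simp only [map_mul, map_pow, norm_mul, norm_pow, map_natCast, Complex.norm_natCast] at h8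
      rw [hD, map_mul, norm_mul]
      exact h8
    have h9 : D ^ (l - k) * ‖φ (w k)‖ ≤ D ^ (l - k) * C0 := by
      rw [h7]
      have h10 : (Q * D) ^ (l - k) * (l.choose k : ℝ) ≤
          D ^ (l - k) * ((max Q 1) ^ l * 2 ^ l) := by
        rw [mul_pow]
        have h11 : Q ^ (l - k) ≤ (max Q 1) ^ l :=
          (pow_le_pow_left₀ hQ0 (le_max_left _ _) _).trans
            (pow_le_pow_right₀ (le_max_right _ _) (Nat.sub_le _ _))
        have h12 : (l.choose k : ℝ) ≤ 2 ^ l := by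
          exact_mod_cast Nat.choose_le_two_pow l k
        calc Q ^ (l - k) * D ^ (l - k) * (l.choose k : ℝ)
            ≤ (max Q 1) ^ l * D ^ (l - k) * 2 ^ l := by gcongr
          _ = _ := by ring
      calc (N0 : ℝ) ^ l * ‖φ (e k : L)‖
          ≤ (N0 : ℝ) ^ l * (D ^ (l - k) * ((max Q 1) ^ l * 2 ^ l)) := by
            gcongr
            exact h6.trans h10
        _ = _ := by rw [hC0]; ring
    exact le_of_mul_le_mul_left h9 (by positivity)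
  obtain ⟨f, hf, hfc, hfm, hfn⟩ := hFS' (fun k => (w k : L) / (N0 : L) ^ l) (by
    intro k hk
    rw [hW, mem_image]
    exact ⟨w k, by rw [Set.Finite.mem_toFinset]; exact hbd k hk, rfl⟩)
  refine ⟨z, hz, hz0, f, hf, ?_⟩
  intro E _ _ β hβ
  let : Algebra (𝓞 L) E := ((algebraMap L E).comp (algebraMap (𝓞 L) L)).toAlgebra
  have h2 : ∀ x : 𝓞 L, algebraMap (𝓞 L) E x = algebraMap L E x := fun x => rfl
  have hcp : ∀ k, (m1 (algebraMap L E ζ) (algebraMap L E a) β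
      (fun r s => algebraMap L E (z r s))).charpoly.coeff k = algebraMap L E (e k) := by
    intro k
    have h1 := coeff_m1' (S := E) hζ ha β z k
    simp only [h2] at h1
    rw [h1, hβ, ← h2, ← h2, aeval_algebraMap_apply]
    rfl
  have hmon := Matrix.charpoly_monic (m1 (algebraMap L E ζ) (algebraMap L E a) β
      (fun r s => algebraMap L E (z r s)))
  have hnd := Matrix.charpoly_natDegree_eq_dim (m1 (algebraMap L E ζ) (algebraMap L E a) β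
      (fun r s => algebraMap L E (z r s)))
  rw [Fintype.card_fin] at hnd
  ext k
  rw [coeff_map, coeff_scaleRoots, hfn]
  rcases lt_trichotomy k l with hk | hk | hk
  · rw [hcp, hfc k hk]
    congr 1
    have h3 := congrArg (algebraMap (𝓞 L) L) (hw k hk)
    simp only [map_mul, map_pow, map_natCast] at h3
    rw [div_mul_eq_mul_div, eq_div_iff (pow_ne_zero _ hNL)]
    rw [mul_comm] 
    rw [← h3]
    simp only [map_mul]
    ring
  · subst hk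
    rw [Nat.sub_self, pow_zero, mul_one]
    have h4 : f.coeff k = 1 := by
      have := hfm.coeff_natDegree
      rwa [hfn] at this
    have h5 := hmon.coeff_natDegree
    rw [hnd] at h5
    rw [h4, map_one, h5]
  · rw [coeff_eq_zero_of_natDegree_lt (by rw [hnd]; exact hk),
      coeff_eq_zero_of_natDegree_lt (by rw [hfn]; exact hk), zero_mul, map_zero]

end Pool.Agent.Helper69.SB
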