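import Pool.Agent.Helper69.SB.Rep

/-!
# Symbols of degree `ℓ`: the characteristic polynomial is a polynomial in `a, b`; ideals
-/

set_option autoImplicit false

namespace Pool.Agent.Helper69.SB

open Matrix Polynomial

variable {ℓ : ℕ} [NeZero ℓ]

/-- the coefficient of the characteristic polynomial as a polynomial in `j` -/
noncomputable def Dk {R : Type*} [CommRing R] (ζ a : R) (z : Fin ℓ → Fin ℓ → R) (k : ℕ) : R[X] :=
  (m1 (C ζ) (C a) (X : R[X]) (fun r s => C (z r s))).charpoly.coeff k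

/-- the coefficient as a polynomial in `j ^ ℓ` -/
noncomputable def Ek {R : Type*} [CommRing R] (ζ a : R) (z : Fin ℓ → Fin ℓ → R) (k : ℕ) : R[X] :=
  contract ℓ (Dk ζ a z k)

theorem coeff_m1 {R S : Type*} [CommRing R] [CommRing S] [Algebra R S] (ζ a : R) (x : S)
    (z : Fin ℓ → Fin ℓ → R) (k : ℕ) :
    (m1 (algebraMap R S ζ) (algebraMap R S a) x (fun r s => algebraMap R S (z r s))).charpoly.coeff
      k = aeval x (Dk ζ a z k) := by
  have h1 : m1 (algebraMap R S ζ) (algebraMap R S a) x (fun r s => algebraMap R S (z r s)) =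
      (m1 (C ζ) (C a) (X : R[X]) (fun r s => C (z r s))).map (aeval x : R[X] →ₐ[R] S).toRingHom := by
    rw [map_m1]
    simp
  rw [h1, charpoly_map, coeff_map]
  rfl

theorem Dk_comp {R E : Type*} [CommRing R] [Field E] [Algebra R E]
    (hinj : Function.Injective (algebraMap R E)) {ζ a : R} (hζ : ζ ^ ℓ = 1) {α : E}
    (hα : α ^ ℓ = algebraMap R E a) (hα0 : α ≠ 0) (z : Fin ℓ → Fin ℓ → R) (k : ℕ) :
    (Dk ζ a z k).comp (C ζ * X) = Dk ζ a z k := by
  apply map_injective _ hinj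
  have e1 : (mapRingHom (algebraMap R E)).comp (compRingHom (C ζ * X)) =
      (aeval (C (algebraMap R E ζ) * X) : R[X] →ₐ[R] E[X]).toRingHom := by
    ext <;> simp
  have e2 : mapRingHom (algebraMap R E) = (aeval X : R[X] →ₐ[R] E[X]).toRingHom := by
    ext <;> simp
  have e3 : ((Dk ζ a z k).comp (C ζ * X)).map (algebraMap R E) =
      aeval (C (algebraMap R E ζ) * X : E[X]) (Dk ζ a z k) :=
    congrArg (fun f => f (Dk ζ a z k)) e1
  have e4 : (Dk ζ a z k).map (algebraMap R E) = aeval (X : E[X]) (Dk ζ a z k) :=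
    congrArg (fun f => f (Dk ζ a z k)) e2
  rw [e3, e4, ← coeff_m1, ← coeff_m1]
  have h5 : ∀ x : R, algebraMap R E[X] x = C (algebraMap R E x) := fun x => rfl
  have hζ' : (C (algebraMap R E ζ) : E[X]) ^ ℓ = 1 := by
    rw [← C_pow, ← map_pow, hζ, map_one, C_1]
  simp only [h5]
  rw [← hα, C_pow, m1_mt _ _ _ (C_ne_zero.2 hα0), m1_mt _ _ _ (C_ne_zero.2 hα0), mt_shift hζ']

theorem Dk_eq {R E : Type*} [CommRing R] [IsDomain R] [Field E] [Algebra R E]
    (hinj : Function.Injective (algebraMap R E)) {ζ a : R} (hζ : IsPrimitiveRoot ζ ℓ) {α : E}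
    (hα : α ^ ℓ = algebraMap R E a) (hα0 : α ≠ 0) (z : Fin ℓ → Fin ℓ → R) (k : ℕ) :
    Dk ζ a z k = expand R ℓ (Ek ζ a z k) := by
  have h1 := Dk_comp hinj hζ.pow_eq_one hα hα0 z k
  have hℓ : 0 < ℓ := Nat.pos_of_ne_zero (NeZero.ne ℓ)
  ext m
  rw [coeff_expand hℓ, Ek]
  by_cases hm : ℓ ∣ m
  · rw [if_pos hm, coeff_contract hℓ.ne', Nat.div_mul_cancel hm]
  · rw [if_neg hm]
    have h2 := congrArg (fun p => p.coeff m) h1
    simp only [comp_C_mul_X_coeff] at h2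
    have h3 : (Dk ζ a z k).coeff m * (ζ ^ m - 1) = 0 := by
      rw [mul_sub, h2]
      ring
    rcases mul_eq_zero.1 h3 with h4 | h4
    · exact h4
    · exact absurd (hζ.dvd_of_pow_eq_one m (sub_eq_zero.1 h4)) hm

theorem inj_ac (R : Type*) [CommRing R] [IsDomain R] :
    Function.Injective (algebraMap R (AlgebraicClosure (FractionRing R))) := by
  rw [IsScalarTower.algebraMap_eq R (FractionRing R) (AlgebraicClosure (FractionRing R))]
  exact (algebraMap (FractionRing R) (AlgebraicClosure (FractionRing R))).injective.comp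
    (IsFractionRing.injective R (FractionRing R))

/-- there is a field with all roots we need -/
theorem exists_root (R : Type*) [CommRing R] [IsDomain R] (a : R) (ha : a ≠ 0) (hℓ : 0 < ℓ) :
    ∃ α : AlgebraicClosure (FractionRing R), α ^ ℓ = algebraMap R _ a ∧ α ≠ 0 := by
  obtain ⟨α, hα⟩ := IsAlgClosed.exists_pow_nat_eq
    (algebraMap R (AlgebraicClosure (FractionRing R)) a) hℓ
  refine ⟨α, hα, ?_⟩
  rintro rfl
  rw [zero_pow hℓ.ne'] at hα
  exact ha ((map_eq_zero_iff _ (inj_ac R)).1 hα.symm)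

variable {R : Type*} [CommRing R] [IsDomain R]

/-- the coefficient of the characteristic polynomial over any algebra -/
theorem coeff_m1' {S : Type*} [CommRing S] [Algebra R S] {ζ a : R} (hζ : IsPrimitiveRoot ζ ℓ)
    (ha : a ≠ 0) (x : S) (z : Fin ℓ → Fin ℓ → R) (k : ℕ) :
    (m1 (algebraMap R S ζ) (algebraMap R S a) x (fun r s => algebraMap R S (z r s))).charpoly.coeff
      k = aeval (x ^ ℓ) (Ek ζ a z k) := by
  have hℓ : 0 < ℓ := Nat.pos_of_ne_zero (NeZero.ne ℓ)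
  obtain ⟨α, hα, hα0⟩ := exists_root (ℓ := ℓ) R a ha hℓ
  rw [coeff_m1, Dk_eq (inj_ac R) hζ hα hα0, expand_aeval]

theorem swap {ζ ζ' a b : R} (hζ : IsPrimitiveRoot ζ ℓ) (h : ζ * ζ' = 1) (ha : a ≠ 0) (hb : b ≠ 0)
    (z : Fin ℓ → Fin ℓ → R) (k : ℕ) :
    (Ek ζ a z k).eval b = (Ek ζ' b (tw ζ' z) k).eval a := by
  have hℓ : 0 < ℓ := Nat.pos_of_ne_zero (NeZero.ne ℓ)
  have hζ'1 : ζ' ^ ℓ = 1 := by
    have := congrArg (fun x => x ^ ℓ) h
    simpa [mul_pow, hζ.pow_eq_one] using this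
  have hζ' : IsPrimitiveRoot ζ' ℓ := by
    refine ⟨hζ'1, fun k hk => hζ.dvd_of_pow_eq_one k ?_⟩
    have := congrArg (fun x => x ^ k) h
    simpa [mul_pow, hk] using this
  obtain ⟨α, hα, hα0⟩ := exists_root (ℓ := ℓ) R a ha hℓ
  obtain ⟨β, hβ, hβ0⟩ := exists_root (ℓ := ℓ) R b hb hℓ
  set E := AlgebraicClosure (FractionRing R)
  have hinj : Function.Injective (algebraMap R E) := inj_ac R
  apply hinj
  have e1 : ∀ (p : R[X]) (x : R), algebraMap R E (p.eval x) = aeval (algebraMap R E x) p := by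
    intro p x
    rw [aeval_algebraMap_apply]
    rfl
  have hp : IsPrimitiveRoot (algebraMap R E ζ) ℓ := hζ.map_of_injective hinj
  have hh : algebraMap R E ζ * algebraMap R E ζ' = 1 := by rw [← map_mul, h, map_one]
  rw [e1, e1, ← hβ, ← hα, ← coeff_m1' hζ ha, ← coeff_m1' hζ' hb, ← hα, ← hβ, m1_mt _ _ _ hα0,
    m1_mt _ _ _ hβ0, mt_swap hp hh]
  congr 2
  unfold tw
  simp

/-- the coefficients lie in powers of the ideal -/
theorem mem_pow {ζ a b h : R} (hζ : IsPrimitiveRoot ζ ℓ) (ha : a ≠ 0) (I : Ideal R) (haI : a ∈ I)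
    (hb : h ^ ℓ - b ∈ I ^ ℓ) (z : Fin ℓ → Fin ℓ → R)
    (hz : ∀ p r : Fin ℓ, (p : ℕ) + r < ℓ → xr z r (ζ ^ (p : ℕ) * h) ∈ I) (k : ℕ) :
    (Ek ζ a z k).eval b ∈ I ^ (ℓ - k) := by
  have h1 := coeff_m1' hζ ha h z k
  simp only [Algebra.algebraMap_self, RingHom.id_apply] at h1
  have h2 : ∀ p q : Fin ℓ, m1 ζ a h z p q ∈ I := by
    intro p q
    unfold m1
    by_cases hpq : p ≤ q
    · rw [if_pos hpq, one_mul]
      apply hz
      rw [Fin.sub_val_of_le hpq]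
      have h3 := Fin.le_def.1 hpq
      have h4 := q.2
      omega
    · rw [if_neg hpq]
      exact I.mul_mem_right _ haI
  have h3 := coeff_charpoly_mem_ideal_pow h2 k
  rw [h1, Fintype.card_fin] at h3
  have h4 : (Ek ζ a z k).eval (h ^ ℓ) - (Ek ζ a z k).eval b ∈ I ^ (ℓ - k) := by
    obtain ⟨c, hc⟩ := sub_dvd_eval_sub (h ^ ℓ) b (Ek ζ a z k)
    rw [hc]
    exact Ideal.mul_mem_right _ _ (Ideal.pow_le_pow_right (Nat.sub_le _ _) hb)
  have h5 : (Ek ζ a z k).eval b = aeval (h ^ ℓ) (Ek ζ a z k) -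
      ((Ek ζ a z k).eval (h ^ ℓ) - (Ek ζ a z k).eval b) := by
    rw [coe_aeval_eq_eval]
    ring
  rw [h5]
  exact Ideal.sub_mem _ h3 h4

/-- both conditions -/
theorem mem_pow_mul {ζ ζ' a b h h' : R} (hζ : IsPrimitiveRoot ζ ℓ) (hh : ζ * ζ' = 1) (ha : a ≠ 0)
    (hb : b ≠ 0) (I J : Ideal R) (hIJ : IsCoprime I J) (haI : a ∈ I) (hbJ : b ∈ J)
    (h1 : h ^ ℓ - b ∈ I ^ ℓ) (h2 : h' ^ ℓ - a ∈ J ^ ℓ) (z : Fin ℓ → Fin ℓ → R)
    (hz : ∀ p r : Fin ℓ, (p : ℕ) + r < ℓ → xr z r (ζ ^ (p : ℕ) * h) ∈ I)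
    (hz' : ∀ p s : Fin ℓ, (p : ℕ) + s < ℓ → xr (tw ζ' z) s (ζ' ^ (p : ℕ) * h') ∈ J) (k : ℕ) :
    (Ek ζ a z k).eval b ∈ (I * J) ^ (ℓ - k) := by
  have hζ'1 : ζ' ^ ℓ = 1 := by
    have := congrArg (fun x => x ^ ℓ) hh
    simpa [mul_pow, hζ.pow_eq_one] using this
  have hζ' : IsPrimitiveRoot ζ' ℓ := by
    refine ⟨hζ'1, fun k hk => hζ.dvd_of_pow_eq_one k ?_⟩
    have := congrArg (fun x => x ^ k) hh
    simpa [mul_pow, hk] using this
  have e1 := mem_pow hζ ha I haI h1 z hz k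
  have e2 := mem_pow hζ' hb J hbJ h2 (tw ζ' z) hz' k
  rw [← swap hζ hh ha hb] at e2
  rw [mul_pow, Ideal.mul_eq_inf_of_isCoprime (hIJ.pow)]
  exact ⟨e1, e2⟩

end Pool.Agent.Helper69.SB
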