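import Pool.Agent.Helper69.SB.Pig

/-!
# Symbols of degree `ℓ`: a short element in the lattice
-/

set_option autoImplicit false

namespace Pool.Agent.Helper69.SB

open NumberField Module Finset Pool.Agent.Helper16.CB Pool.Agent.Helper35.CB

variable {ℓ : ℕ} [NeZero ℓ]

/-- pairs different from `(0, 0)` -/
abbrev IX (ℓ : ℕ) [NeZero ℓ] := {x : Fin ℓ × Fin ℓ // x ≠ (0, 0)}

/-- the conditions -/
abbrev SX (ℓ : ℕ) := {x : Fin ℓ × Fin ℓ // (x.1 : ℕ) + x.2 < ℓ ∧ ¬ ((x.1 : ℕ) + 1 = ℓ)}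

theorem card_SX (hℓ : 0 < ℓ) : Fintype.card (SX ℓ) + 1 = wt ℓ := by
  classical
  rw [← card_pairs, Fintype.card_subtype]
  have h1 : ({x : Fin ℓ × Fin ℓ | (x.1 : ℕ) + x.2 < ℓ} : Finset _) =
      insert ((⟨ℓ - 1, by omega⟩, 0) : Fin ℓ × Fin ℓ)
        ({x : Fin ℓ × Fin ℓ | (x.1 : ℕ) + x.2 < ℓ ∧ ¬ ((x.1 : ℕ) + 1 = ℓ)} : Finset _) := by
    ext x
    obtain ⟨p, r⟩ := x
    simp only [mem_filter, mem_univ, true_and, mem_insert, Prod.mk.injEq, Fin.ext_iff, Fin.val_zero]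
    have := p.2
    omega
  rw [h1, card_insert_of_notMem]
  simp only [mem_filter, mem_univ, true_and, not_and, not_not]
  omega

/-- extension by zero at `(0, 0)` -/
def ext0 {R : Type*} [Zero R] (v : IX ℓ → R) : Fin ℓ → Fin ℓ → R :=
  fun r s => if h : (r, s) ≠ (0, 0) then v ⟨(r, s), h⟩ else 0

theorem ext0_zero {R : Type*} [Zero R] (v : IX ℓ → R) : ext0 v 0 0 = 0 := by
  unfold ext0
  rw [dif_neg (by simp)]

theorem ext0_add {R : Type*} [AddZeroClass R] (v w : IX ℓ → R) (r s : Fin ℓ) :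
    ext0 (v + w) r s = ext0 v r s + ext0 w r s := by
  unfold ext0
  split_ifs <;> simp

omit [NeZero ℓ] in
theorem xr_add {R : Type*} [CommRing R] (z w : Fin ℓ → Fin ℓ → R) (r : Fin ℓ) (T : R) :
    xr (fun r s => z r s + w r s) r T = xr z r T + xr w r T := by
  unfold xr
  rw [← sum_add_distrib]
  exact sum_congr rfl fun s _ => by ring

omit [NeZero ℓ] in
theorem tw_add {R : Type*} [CommRing R] (ζ : R) (z w : Fin ℓ → Fin ℓ → R) :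
    tw ζ (fun r s => z r s + w r s) = fun r s => tw ζ z r s + tw ζ w r s := by
  funext r s
  unfold tw
  ring

omit [NeZero ℓ] in
/-- the sum over all rows -/
theorem sum_xr {R : Type*} [CommRing R] [IsDomain R] {ζ : R} (hζ : IsPrimitiveRoot ζ ℓ)
    (z : Fin ℓ → Fin ℓ → R) (r : Fin ℓ) (h : R) (h0 : ∀ s : Fin ℓ, (s : ℕ) = 0 → z r s = 0) :
    ∑ p : Fin ℓ, xr z r (ζ ^ (p : ℕ) * h) = 0 := by
  unfold xr
  rw [sum_comm]
  refine sum_eq_zero fun s _ => ?_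
  by_cases hs : (s : ℕ) = 0
  · rw [h0 s hs]
    simp
  · have h1 : ∑ p : Fin ℓ, (ζ ^ (s : ℕ)) ^ (p : ℕ) = 0 := by
      rw [Fin.sum_univ_eq_sum_range (fun i => (ζ ^ (s : ℕ)) ^ i) ℓ]
      have h2 := mul_geom_sum (ζ ^ (s : ℕ)) ℓ
      have h3 : (ζ ^ (s : ℕ)) ^ ℓ = 1 := by
        rw [← pow_mul, mul_comm, pow_mul, hζ.pow_eq_one, one_pow]
      rw [h3, sub_self] at h2
      rcases mul_eq_zero.1 h2 with h4 | h4
      · exfalso
        have h5 := hζ.dvd_of_pow_eq_one _ (sub_eq_zero.1 h4)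
        exact hs (Nat.eq_zero_of_dvd_of_lt h5 s.2)
      · exact h4
    have h2 : ∀ p : Fin ℓ, z r s * (ζ ^ (p : ℕ) * h) ^ (s : ℕ) =
        z r s * h ^ (s : ℕ) * (ζ ^ (s : ℕ)) ^ (p : ℕ) := by
      intro p
      rw [mul_pow, ← pow_mul, mul_comm (p : ℕ), pow_mul]
      ring
    rw [sum_congr rfl fun p _ => h2 p, ← mul_sum, h1, mul_zero]

/-- the missing condition follows -/
theorem cond_last {R : Type*} [CommRing R] [IsDomain R] {ζ : R} (hζ : IsPrimitiveRoot ζ ℓ)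
    (z : Fin ℓ → Fin ℓ → R) (h : R) (I : Ideal R) (h0 : z 0 0 = 0)
    (hz : ∀ x : SX ℓ, xr z x.1.2 (ζ ^ (x.1.1 : ℕ) * h) ∈ I) :
    ∀ p r : Fin ℓ, (p : ℕ) + r < ℓ → xr z r (ζ ^ (p : ℕ) * h) ∈ I := by
  classical
  intro p r hpr
  by_cases hp : (p : ℕ) + 1 = ℓ
  · have hr : r = 0 := by
      apply Fin.ext
      rw [Fin.val_zero]
      omega
    subst hr
    have h1 := sum_xr hζ z 0 h (fun s hs => by
      have : s = 0 := Fin.ext (by rw [hs, Fin.val_zero])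
      rw [this, h0])
    rw [← add_sum_erase _ _ (mem_univ p)] at h1
    rw [eq_neg_of_add_eq_zero_left h1]
    refine Ideal.neg_mem_iff _ |>.2 (Ideal.sum_mem _ fun q hq => ?_)
    have hqp : q ≠ p := (mem_erase.1 hq).1
    have hq' : ¬ (q : ℕ) + 1 = ℓ := fun h2 => hqp (Fin.ext (by omega))
    exact hz ⟨(q, 0), by rw [Fin.val_zero, add_zero]; exact q.2, hq'⟩
  · exact hz ⟨(p, r), hpr, hp⟩

/-- the map whose kernel is the lattice -/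
def Phi {R : Type*} [CommRing R] (ζ ζ' h h' : R) (I J : Ideal R) :
    (IX ℓ → R) →+ (SX ℓ → R ⧸ I) × (SX ℓ → R ⧸ J) :=
  AddMonoidHom.mk' (fun v =>
    (fun x => Ideal.Quotient.mk I (xr (ext0 v) x.1.2 (ζ ^ (x.1.1 : ℕ) * h)),
     fun x => Ideal.Quotient.mk J (xr (tw ζ' (ext0 v)) x.1.2 (ζ' ^ (x.1.1 : ℕ) * h'))))
    (by
      intro v w
      have h1 : ext0 (v + w) = fun r s => ext0 v r s + ext0 w r s := by
        funext r s
        exact ext0_add v w r s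
      rw [h1]
      refine Prod.ext ?_ ?_
      · funext x
        simp only [Prod.fst_add, Pi.add_apply]
        rw [xr_add, map_add]
      · funext x
        simp only [Prod.snd_add, Pi.add_apply]
        rw [tw_add, xr_add, map_add])

theorem mem_ker_Phi {R : Type*} [CommRing R] (ζ ζ' h h' : R) (I J : Ideal R) (v : IX ℓ → R)
    (hv : v ∈ (Phi ζ ζ' h h' I J).ker) :
    (∀ x : SX ℓ, xr (ext0 v) x.1.2 (ζ ^ (x.1.1 : ℕ) * h) ∈ I) ∧
      ∀ x : SX ℓ, xr (tw ζ' (ext0 v)) x.1.2 (ζ' ^ (x.1.1 : ℕ) * h') ∈ J := by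
  rw [AddMonoidHom.mem_ker, Prod.ext_iff] at hv
  obtain ⟨h1, h2⟩ := hv
  exact ⟨fun x => Ideal.Quotient.eq_zero_iff_mem.1 (congrFun h1 x),
    fun x => Ideal.Quotient.eq_zero_iff_mem.1 (congrFun h2 x)⟩

theorem index_Phi {L : Type*} [Field L] [NumberField L] (ζ ζ' h h' : 𝓞 L) (I J : Ideal (𝓞 L))
    (hI : I ≠ ⊥) (hJ : J ≠ ⊥) :
    (Phi (ℓ := ℓ) ζ ζ' h h' I J).ker.index ≠ 0 ∧
    (Phi (ℓ := ℓ) ζ ζ' h h' I J).ker.index ≤
      Ideal.absNorm I ^ Fintype.card (SX ℓ) * Ideal.absNorm J ^ Fintype.card (SX ℓ) := by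
  have : Finite (𝓞 L ⧸ I) := Ideal.finiteQuotientOfFreeOfNeBot I hI
  have : Finite (𝓞 L ⧸ J) := Ideal.finiteQuotientOfFreeOfNeBot J hJ
  rw [AddSubgroup.index_ker]
  constructor
  · exact Nat.card_pos.ne'
  · refine (Nat.card_le_card_of_injective (Subtype.val :
      (Phi (ℓ := ℓ) ζ ζ' h h' I J).range → _) Subtype.val_injective).trans (le_of_eq ?_)
    rw [Nat.card_prod, Nat.card_fun, Nat.card_fun]
    simp only [Nat.card_eq_fintype_card (α := SX ℓ)]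
    rfl

/-- the size parameter -/
noncomputable def sz {L : Type*} [Field L] [NumberField L] (ℓ : ℕ) (a : 𝓞 L) : ℝ :=
  ((Ideal.absNorm (Ideal.span {a}) : ℝ) ^ (1 / (finrank ℚ L : ℝ))) ^ (1 / (ℓ : ℝ))

omit [NeZero ℓ] in
theorem sz_pow {L : Type*} [Field L] [NumberField L] (hℓ : 0 < ℓ) (a : 𝓞 L) :
    sz ℓ a ^ ℓ = (Ideal.absNorm (Ideal.span {a}) : ℝ) ^ (1 / (finrank ℚ L : ℝ)) := by
  unfold sz
  rw [← Real.rpow_natCast, ← Real.rpow_mul (by positivity), one_div_mul_cancel, Real.rpow_one]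
  exact_mod_cast hℓ.ne'

omit [NeZero ℓ] in
theorem sz_pow' {L : Type*} [Field L] [NumberField L] (hℓ : 0 < ℓ) (a : 𝓞 L) :
    (sz ℓ a ^ ℓ) ^ finrank ℚ L = (Ideal.absNorm (Ideal.span {a}) : ℝ) := by
  rw [sz_pow hℓ, ← Real.rpow_natCast, ← Real.rpow_mul (by positivity), one_div_mul_cancel,
    Real.rpow_one]
  have : 0 < finrank ℚ L := finrank_pos
  exact_mod_cast this.ne'

omit [NeZero ℓ] in
theorem one_le_sz {L : Type*} [Field L] [NumberField L] {a : 𝓞 L} (ha : a ≠ 0) :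
    1 ≤ sz ℓ a := by
  unfold sz
  apply Real.one_le_rpow
  · apply Real.one_le_rpow
    · have h1 : Ideal.absNorm (Ideal.span {a}) ≠ 0 := by
        rw [Ne, Ideal.absNorm_eq_zero_iff, Ideal.span_singleton_eq_bot]
        exact ha
      exact_mod_cast Nat.one_le_iff_ne_zero.2 h1
    · positivity
  · positivity

theorem prod_X (A B : ℝ) :
    ∏ x : IX ℓ, A ^ (ℓ - (x.1.1 : ℕ)) * B ^ (ℓ - (x.1.2 : ℕ)) =
      (A ^ ℓ) ^ (wt ℓ - 1) * (B ^ ℓ) ^ (wt ℓ - 1) := by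
  classical
  have hℓ : 0 < ℓ := Nat.pos_of_ne_zero (NeZero.ne ℓ)
  have hwt : 1 ≤ wt ℓ := by
    rw [← card_SX hℓ]
    omega
  rw [prod_mul_distrib, prod_pow_eq_pow_sum, prod_pow_eq_pow_sum, ← pow_mul, ← pow_mul]
  have h0 : ∀ f : Fin ℓ × Fin ℓ → ℕ, ∑ x : IX ℓ, f x.1 + f (0, 0) = ∑ x, f x := by
    intro f
    rw [← sum_erase_add _ _ (mem_univ ((0, 0) : Fin ℓ × Fin ℓ))]
    congr 1
    rw [← sum_subtype]
    intro x
    simp
  have h1 : ∑ x : IX ℓ, (ℓ - (x.1.1 : ℕ)) = ℓ * (wt ℓ - 1) := by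
    have h2 := h0 (fun x => ℓ - (x.1 : ℕ))
    rw [Fintype.sum_prod_type] at h2
    simp only [sum_const, card_univ, Fintype.card_fin, smul_eq_mul, Fin.val_zero] at h2
    rw [← mul_sum] at h2
    change _ = ℓ * wt ℓ at h2
    rw [Nat.mul_sub, mul_one]
    omega
  have h2 : ∑ x : IX ℓ, (ℓ - (x.1.2 : ℕ)) = ℓ * (wt ℓ - 1) := by
    have h2 := h0 (fun x => ℓ - (x.2 : ℕ))
    rw [Fintype.sum_prod_type] at h2
    simp only [sum_const, card_univ, Fintype.card_fin, smul_eq_mul, Fin.val_zero] at h2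
    change _ = ℓ * wt ℓ at h2
    rw [Nat.mul_sub, mul_one]
    omega
  rw [h1, h2]

theorem exists_short {L : Type*} [Field L] [NumberField L] (hℓ : 1 < ℓ) {ζ ζ' : 𝓞 L}
    (hζ : IsPrimitiveRoot ζ ℓ) (hh : ζ * ζ' = 1) {a b : 𝓞 L} (ha : a ≠ 0) (hb : b ≠ 0)
    {I J : Ideal (𝓞 L)} (haI : a ∈ I) (hbJ : b ∈ J) (h h' : 𝓞 L) :
    ∃ z : Fin ℓ → Fin ℓ → 𝓞 L, z 0 0 = 0 ∧ z ≠ 0 ∧
      (∀ p r : Fin ℓ, (p : ℕ) + r < ℓ → xr z r (ζ ^ (p : ℕ) * h) ∈ I) ∧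
      (∀ p s : Fin ℓ, (p : ℕ) + s < ℓ → xr (tw ζ' z) s (ζ' ^ (p : ℕ) * h') ∈ J) ∧
      ∀ r s : Fin ℓ, ∀ σ : L →+* ℂ, ‖σ (z r s : L)‖ ≤
        sz ℓ a ^ (ℓ - (r : ℕ)) * sz ℓ b ^ (ℓ - (s : ℕ)) * SS L := by
  classical
  have hI : I ≠ ⊥ := fun h0 => ha (by rw [h0] at haI; exact (Submodule.mem_bot _).1 haI)
  have hJ : J ≠ ⊥ := fun h0 => hb (by rw [h0] at hbJ; exact (Submodule.mem_bot _).1 hbJ)
  have hℓ0 : 0 < ℓ := by omega
  obtain ⟨hi0, hi⟩ := index_Phi (ℓ := ℓ) ζ ζ' h h' I J hI hJ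
  have hne : Nonempty (IX ℓ) := ⟨⟨(⟨1, hℓ⟩, 0), by
    intro h0
    have h1 := congrArg (fun x => (x.1 : ℕ)) h0
    simp at h1⟩⟩
  have hN : ∀ {c : 𝓞 L} {K : Ideal (𝓞 L)}, c ≠ 0 → c ∈ K →
      Ideal.absNorm K ≤ Ideal.absNorm (Ideal.span {c}) := by
    intro c K hc hcK
    refine Nat.le_of_dvd (Nat.pos_of_ne_zero ?_) (Ideal.absNorm_dvd_absNorm_of_le ?_)
    · rw [Ne, Ideal.absNorm_eq_zero_iff, Ideal.span_singleton_eq_bot]
      exact hc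
    · rwa [Ideal.span_singleton_le_iff_mem]
  have hidx : (((Phi (ℓ := ℓ) ζ ζ' h h' I J).ker.index : ℕ) : ℝ) ≤
      (∏ x : IX ℓ, sz ℓ a ^ (ℓ - (x.1.1 : ℕ)) * sz ℓ b ^ (ℓ - (x.1.2 : ℕ))) ^ finrank ℚ L := by
    have h5 : ∀ c : 𝓞 L, ((sz ℓ c ^ ℓ) ^ (wt ℓ - 1)) ^ finrank ℚ L =
        (Ideal.absNorm (Ideal.span {c}) : ℝ) ^ (wt ℓ - 1) := by
      intro c
      rw [← pow_mul, mul_comm (wt ℓ - 1), pow_mul, sz_pow' hℓ0]
    rw [prod_X, mul_pow, h5, h5]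
    have h1 : wt ℓ - 1 = Fintype.card (SX ℓ) := by
      rw [← card_SX hℓ0]
      omega
    rw [h1]
    have h2 : (Phi (ℓ := ℓ) ζ ζ' h h' I J).ker.index ≤
        Ideal.absNorm (Ideal.span {a}) ^ Fintype.card (SX ℓ) *
          Ideal.absNorm (Ideal.span {b}) ^ Fintype.card (SX ℓ) :=
      hi.trans (Nat.mul_le_mul (Nat.pow_le_pow_left (hN ha haI) _)
        (Nat.pow_le_pow_left (hN hb hbJ) _))
    exact_mod_cast h2
  obtain ⟨v, hv, hv0, hvs⟩ := pigeon (Phi (ℓ := ℓ) ζ ζ' h h' I J).ker hi0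
    (fun x => sz ℓ a ^ (ℓ - (x.1.1 : ℕ)) * sz ℓ b ^ (ℓ - (x.1.2 : ℕ)))
    (fun x => one_le_mul_of_one_le_of_one_le (one_le_pow₀ (one_le_sz ha))
      (one_le_pow₀ (one_le_sz hb))) hidx
  obtain ⟨c1, c2⟩ := mem_ker_Phi ζ ζ' h h' I J v hv
  have hζ'1 : ζ' ^ ℓ = 1 := by
    have := congrArg (fun x => x ^ ℓ) hh
    simpa [mul_pow, hζ.pow_eq_one] using this
  have hζ' : IsPrimitiveRoot ζ' ℓ := by
    refine ⟨hζ'1, fun k hk => hζ.dvd_of_pow_eq_one k ?_⟩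
    have := congrArg (fun x => x ^ k) hh
    simpa [mul_pow, hk] using this
  refine ⟨ext0 v, ext0_zero v, ?_, cond_last hζ _ h I (ext0_zero v) c1,
    cond_last hζ' _ h' J ?_ c2, ?_⟩
  · intro h0
    apply hv0
    funext x
    have h1 := congrFun (congrFun h0 x.1.1) x.1.2
    unfold ext0 at h1
    rw [dif_pos x.2] at h1
    exact h1
  · unfold tw
    rw [ext0_zero, mul_zero]
  · intro r s σ
    unfold ext0
    by_cases hrs : (r, s) ≠ (0, 0)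
    · rw [dif_pos hrs]
      exact hvs ⟨(r, s), hrs⟩ σ
    · rw [dif_neg hrs]
      simp only [map_zero, norm_zero]
      have h1 := one_le_sz (ℓ := ℓ) ha
      have h2 := one_le_sz (ℓ := ℓ) hb
      have h3 : 0 ≤ SS L := SS_nonneg L
      positivity

end Pool.Agent.Helper69.SB
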