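import Pool.Agent.Helper69.SB.Int
import Pool.Agent.Helper69.CB.Mink

/-!
# Symbols of degree `ℓ`: the pigeonhole principle
-/

set_option autoImplicit false

namespace Pool.Agent.Helper69.SB

open NumberField Module Finset Pool.Agent.Helper16.CB Pool.Agent.Helper35.CB

/-- the pigeonhole principle for a subgroup of `(𝓞 L)^I` -/
theorem pigeon {L : Type*} [Field L] [NumberField L] {I : Type*} [Fintype I] [Nonempty I]
    (G : AddSubgroup (I → 𝓞 L)) (hG : G.index ≠ 0) (X : I → ℝ) (hX : ∀ i, 1 ≤ X i)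
    (h : (G.index : ℝ) ≤ (∏ i, X i) ^ finrank ℚ L) :
    ∃ v ∈ G, v ≠ 0 ∧ ∀ i, ∀ σ : L →+* ℂ, ‖σ (v i : L)‖ ≤ X i * SS L := by
  classical
  set b := RingOfIntegers.basis L with hb
  set n := finrank ℚ L with hn
  have hnpos : 0 < n := finrank_pos
  let T : Type _ := (i : I) → Ix L → Fin (⌊X i⌋₊ + 1)
  let el : T → I → 𝓞 L := fun a i => ∑ j, ((a i j : ℕ) : ℤ) • b j
  have hcard : Fintype.card T = ∏ i, (⌊X i⌋₊ + 1) ^ n := by
    simp only [T, Fintype.card_pi, prod_const, Fintype.card_fin]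
    rw [card_univ, card_ix]
  have hel : ∀ (a a' : T) (i : I), el a i - el a' i =
      ∑ j, (((a i j : ℕ) : ℤ) - ((a' i j : ℕ) : ℤ)) • b j := by
    intro a a' i
    simp only [el, sub_smul, sum_sub_distrib]
  have hinj : ∀ (a a' : T), el a - el a' = 0 → a = a' := by
    intro a a' h0
    funext i j
    have h1 := congrFun h0 i
    rw [Pi.sub_apply, hel] at h1
    have h2 := (Fintype.linearIndependent_iff.1 b.linearIndependent) _ h1 j
    apply Fin.ext
    omega
  have hnorm : ∀ (a a' : T) (i : I) (σ : L →+* ℂ),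
      ‖σ ((el a i - el a' i : 𝓞 L) : L)‖ ≤ X i * SS L := by
    intro a a' i σ
    rw [hel]
    have hX := hX i
    refine norm_le_of_coord (fun j => ((a i j : ℕ) : ℤ) - ((a' i j : ℕ) : ℤ)) (X i)
      (fun j => ?_) (by linarith) σ
    have hf : ((⌊X i⌋₊ : ℕ) : ℝ) ≤ X i := Nat.floor_le (by linarith)
    have h1 : (a i j : ℕ) ≤ ⌊X i⌋₊ := by have := (a i j).2; omega
    have h2 : (a' i j : ℕ) ≤ ⌊X i⌋₊ := by have := (a' i j).2; omega
    have h3 : ((a i j : ℕ) : ℝ) ≤ X i := le_trans (by exact_mod_cast h1) hf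
    have h4 : ((a' i j : ℕ) : ℝ) ≤ X i := le_trans (by exact_mod_cast h2) hf
    push_cast
    rw [abs_le]
    constructor <;> linarith [Nat.cast_nonneg (α := ℝ) (a i j : ℕ),
      Nat.cast_nonneg (α := ℝ) (a' i j : ℕ)]
  have : G.FiniteIndex := ⟨hG⟩
  let : Fintype ((I → 𝓞 L) ⧸ G) := AddSubgroup.fintypeQuotientOfFiniteIndex
  have hq : Fintype.card ((I → 𝓞 L) ⧸ G) = G.index := by
    rw [AddSubgroup.index_eq_card, Nat.card_eq_fintype_card]
  let F : T → (I → 𝓞 L) ⧸ G := fun t => QuotientAddGroup.mk (el t)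
  have hlt : Fintype.card ((I → 𝓞 L) ⧸ G) < Fintype.card T := by
    rw [hq, hcard]
    have h1 : (∏ i, X i) ^ n < (∏ i, ((⌊X i⌋₊ + 1 : ℕ) : ℝ)) ^ n := by
      apply pow_lt_pow_left₀ _ (prod_nonneg fun i _ => by linarith [hX i]) hnpos.ne'
      apply prod_lt_prod_of_nonempty (fun i _ => by linarith [hX i])
      · intro i _
        push_cast
        exact Nat.lt_floor_add_one _
      · exact univ_nonempty
    have h2 : (G.index : ℝ) < ((∏ i, (⌊X i⌋₊ + 1) ^ n : ℕ) : ℝ) := by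
      refine lt_of_le_of_lt h (lt_of_lt_of_eq h1 ?_)
      rw [prod_pow]
      push_cast
      rfl
    exact_mod_cast h2
  obtain ⟨t, t', hne, hF⟩ := Fintype.exists_ne_map_eq_of_card_lt F hlt
  have hmem : el t - el t' ∈ G := by
    have h1 := QuotientAddGroup.eq.1 hF.symm
    rwa [neg_add_eq_sub] at h1
  exact ⟨_, hmem, fun h0 => hne (hinj _ _ h0), fun i σ => hnorm t t' i σ⟩

/-- `∑ r, (ℓ - r)` -/
def wt (ℓ : ℕ) : ℕ := ∑ r : Fin ℓ, (ℓ - (r : ℕ))

/-- the number of pairs `(p, r)` with `p + r < ℓ` -/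
theorem card_pairs (ℓ : ℕ) :
    #{x : Fin ℓ × Fin ℓ | (x.1 : ℕ) + x.2 < ℓ} = wt ℓ := by
  rw [wt, card_filter, Fintype.sum_prod_type_right]
  refine sum_congr rfl fun r _ => ?_
  rw [← card_filter]
  have h1 : (univ.filter fun p : Fin ℓ => (p : ℕ) + r < ℓ) =
      (univ.filter fun p : Fin ℓ => (p : ℕ) < ℓ - r) := by
    ext p
    simp only [mem_filter, mem_univ, true_and]
    omega
  rw [h1]
  have h2 : (univ.filter fun p : Fin ℓ => (p : ℕ) < ℓ - r) =
      (univ : Finset (Fin (ℓ - r))).map (Fin.castLEEmb (Nat.sub_le ℓ r)) := by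
    ext p
    simp only [mem_filter, mem_univ, true_and, mem_map]
    constructor
    · intro hp
      exact ⟨⟨p, hp⟩, rfl⟩
    · rintro ⟨q, rfl⟩
      exact q.2
  rw [h2, card_map, card_univ, Fintype.card_fin]

end Pool.Agent.Helper69.SB
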