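import Mathlib

/-!
# Symbols of degree `ℓ`: the two monomial representations and their characteristic polynomial

`z r s` are the coefficients of `∑ z r s j ^ s i ^ r` with `i ^ ℓ = a`, `j ^ ℓ = b`, `i j = ζ j i`.
-/

set_option autoImplicit false

namespace Pool.Agent.Helper69.SB

open Matrix Polynomial

/-- the polynomial `∑ s, z r s T ^ s` -/
def xr {R : Type*} [CommRing R] {ℓ : ℕ} (z : Fin ℓ → Fin ℓ → R) (r : Fin ℓ) (T : R) : R :=
  ∑ s : Fin ℓ, z r s * T ^ (s : ℕ)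

/-- the representation with `i` the shift with corner entry `a` and `j` diagonal -/
def m1 {R : Type*} [CommRing R] {ℓ : ℕ} [NeZero ℓ] (ζ a β : R) (z : Fin ℓ → Fin ℓ → R) :
    Matrix (Fin ℓ) (Fin ℓ) R :=
  fun p q => (if p ≤ q then 1 else a) * xr z (q - p) (ζ ^ (p : ℕ) * β)

/-- the same with `i` equal to `α` times the cyclic shift -/
def mt {R : Type*} [CommRing R] {ℓ : ℕ} [NeZero ℓ] (ζ α β : R) (z : Fin ℓ → Fin ℓ → R) :
    Matrix (Fin ℓ) (Fin ℓ) R :=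
  fun p q => α ^ ((q - p : Fin ℓ) : ℕ) * xr z (q - p) (ζ ^ (p : ℕ) * β)

/-- the coefficients after exchange of `i` and `j` -/
def tw {R : Type*} [CommRing R] {ℓ : ℕ} (ζ' : R) (z : Fin ℓ → Fin ℓ → R) :
    Fin ℓ → Fin ℓ → R :=
  fun s r => ζ' ^ ((r : ℕ) * (s : ℕ)) * z r s

theorem charpoly_eq_of_mul_eq {R : Type*} [CommRing R] [IsDomain R] {n : Type*} [Fintype n]
    [DecidableEq n] (M M' S : Matrix n n R) (h : M' * S = S * M) (hS : S.det ≠ 0) :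
    M'.charpoly = M.charpoly := by
  have h1 : charmatrix M' * S.map C = S.map C * charmatrix M := by
    unfold charmatrix
    rw [sub_mul, mul_sub]
    congr 1
    · rw [Matrix.scalar_commute]
      intro r
      exact Commute.all _ _
    · have h2 := congrArg (fun A => (C : R →+* R[X]).mapMatrix A) h
      simp only [map_mul] at h2
      exact h2
  unfold Matrix.charpoly
  have h2 := congrArg det h1
  rw [det_mul, det_mul, mul_comm (S.map C).det] at h2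
  refine mul_right_cancel₀ ?_ h2
  have h3 : (S.map (C : R →+* R[X])).det = C S.det := by
    rw [RingHom.map_det]
    rfl
  rw [h3]
  exact C_ne_zero.mpr hS

section

variable {ℓ : ℕ} [NeZero ℓ]

omit [NeZero ℓ] in
theorem map_xr {R S : Type*} [CommRing R] [CommRing S] (f : R →+* S) (z : Fin ℓ → Fin ℓ → R)
    (r : Fin ℓ) (T : R) : f (xr z r T) = xr (fun r s => f (z r s)) r (f T) := by
  simp [xr, map_sum]

theorem map_m1 {R S : Type*} [CommRing R] [CommRing S] (f : R →+* S) (ζ a β : R)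
    (z : Fin ℓ → Fin ℓ → R) :
    (m1 ζ a β z).map f = m1 (f ζ) (f a) (f β) (fun r s => f (z r s)) := by
  ext p q
  rw [Matrix.map_apply]
  unfold m1
  rw [map_mul, map_xr, map_mul, map_pow]
  congr 1
  split_ifs <;> simp

omit [NeZero ℓ] in
theorem pow_fin_add {R : Type*} [CommRing R] {ζ : R} (h : ζ ^ ℓ = 1) (p q : Fin ℓ) :
    ζ ^ ((p + q : Fin ℓ) : ℕ) = ζ ^ (p : ℕ) * ζ ^ (q : ℕ) := by
  rw [Fin.val_add, ← pow_eq_pow_mod _ h, pow_add]

theorem m1_mt {R : Type*} [CommRing R] [IsDomain R] (ζ α β : R) (hα : α ≠ 0)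
    (z : Fin ℓ → Fin ℓ → R) : (m1 ζ (α ^ ℓ) β z).charpoly = (mt ζ α β z).charpoly := by
  refine charpoly_eq_of_mul_eq _ _ (diagonal fun p : Fin ℓ => α ^ (p : ℕ)) ?_ ?_
  · ext p q
    rw [mul_diagonal, diagonal_mul]
    unfold m1 mt
    by_cases hpq : p ≤ q
    · rw [if_pos hpq, Fin.sub_val_of_le hpq]
      have h1 : α ^ (q : ℕ) = α ^ (p : ℕ) * α ^ ((q : ℕ) - (p : ℕ)) := by
        rw [← pow_add]
        congr 1
        have := Fin.le_def.1 hpq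
        omega
      rw [h1]
      ring
    · rw [if_neg hpq]
      have h0 : q < p := not_le.1 hpq
      have h2 : ((q - p : Fin ℓ) : ℕ) = ℓ + (q : ℕ) - (p : ℕ) := Fin.coe_sub_iff_lt.2 h0
      have h1 : α ^ ℓ * α ^ (q : ℕ) = α ^ (p : ℕ) * α ^ ((q - p : Fin ℓ) : ℕ) := by
        rw [← pow_add, ← pow_add, h2]
        congr 1
        have := p.2
        omega
      calc α ^ ℓ * xr z (q - p) (ζ ^ (p : ℕ) * β) * α ^ (q : ℕ)
          = α ^ ℓ * α ^ (q : ℕ) * xr z (q - p) (ζ ^ (p : ℕ) * β) := by ring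
        _ = _ := by rw [h1]; ring
  · rw [det_diagonal]
    exact Finset.prod_ne_zero_iff.2 fun p _ => pow_ne_zero _ hα

theorem mt_shift {R : Type*} [CommRing R] {ζ : R} (h : ζ ^ ℓ = 1) (α β : R)
    (z : Fin ℓ → Fin ℓ → R) :
    (mt ζ α (ζ * β) z).charpoly = (mt ζ α β z).charpoly := by
  rw [← charpoly_reindex (Equiv.addRight (1 : Fin ℓ)) (mt ζ α (ζ * β) z)]
  congr 1
  ext p q
  rw [reindex_apply, submatrix_apply]
  unfold mt
  have h1 : ∀ p : Fin ℓ, (Equiv.addRight (1 : Fin ℓ)).symm p = p - 1 := fun p => by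
    rw [Equiv.addRight_symm, Equiv.coe_addRight, sub_eq_add_neg]
  rw [h1, h1, sub_sub_sub_cancel_right]
  congr 2
  have h2 : ζ ^ ((p : Fin ℓ) : ℕ) = ζ ^ ((p - 1 : Fin ℓ) : ℕ) * ζ ^ ((1 : Fin ℓ) : ℕ) := by
    rw [← pow_fin_add h, sub_add_cancel]
  have h3 : ζ ^ ((1 : Fin ℓ) : ℕ) = ζ := by
    rw [Fin.val_one', ← pow_eq_pow_mod _ h, pow_one]
  rw [h2, h3]
  ring

theorem mt_swap {R : Type*} [CommRing R] [IsDomain R] {ζ ζ' : R} (hζ : IsPrimitiveRoot ζ ℓ)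
    (h : ζ * ζ' = 1) (α β : R) (z : Fin ℓ → Fin ℓ → R) :
    (mt ζ α β z).charpoly = (mt ζ' β α (tw ζ' z)).charpoly := by
  have hζ1 : ζ ^ ℓ = 1 := hζ.pow_eq_one
  have hζ'1 : ζ' ^ ℓ = 1 := by
    have := congrArg (fun x => x ^ ℓ) h
    simpa [mul_pow, hζ1] using this
  refine charpoly_eq_of_mul_eq _ _ (vandermonde fun p : Fin ℓ => ζ' ^ (p : ℕ)) ?_ ?_
  · ext p t
    rw [Matrix.mul_apply, Matrix.mul_apply]
    have e1 : ∑ q, mt ζ α β z p q * vandermonde (fun p : Fin ℓ => ζ' ^ (p : ℕ)) q t =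
        ∑ r : Fin ℓ, ∑ s : Fin ℓ, α ^ (r : ℕ) * z r s * (ζ ^ (p : ℕ) * β) ^ (s : ℕ) *
          (ζ' ^ (r : ℕ)) ^ (t : ℕ) * (ζ' ^ (p : ℕ)) ^ (t : ℕ) := by
      rw [← Equiv.sum_comp (Equiv.addRight p)]
      refine Finset.sum_congr rfl fun r _ => ?_
      unfold mt xr
      rw [vandermonde_apply, Equiv.coe_addRight, add_sub_cancel_right, pow_fin_add hζ'1, mul_pow,
        Finset.mul_sum, Finset.sum_mul]
      refine Finset.sum_congr rfl fun s _ => ?_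
      ring
    have e2 : ∑ q, vandermonde (fun p : Fin ℓ => ζ' ^ (p : ℕ)) p q *
        mt ζ' β α (tw ζ' z) q t =
        ∑ s : Fin ℓ, ∑ r : Fin ℓ, (ζ' ^ (p : ℕ)) ^ ((t - s : Fin ℓ) : ℕ) *
          (β ^ (s : ℕ) * (ζ' ^ ((r : ℕ) * (s : ℕ)) * z r s *
            (ζ' ^ ((t - s : Fin ℓ) : ℕ) * α) ^ (r : ℕ))) := by
      rw [← Equiv.sum_comp (Equiv.subLeft t)]
      refine Finset.sum_congr rfl fun s _ => ?_
      unfold mt xr tw
      rw [vandermonde_apply, Equiv.subLeft_apply, sub_sub_cancel, Finset.mul_sum, Finset.mul_sum]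
    rw [e1, e2, Finset.sum_comm]
    refine Finset.sum_congr rfl fun s _ => Finset.sum_congr rfl fun r _ => ?_
    have h2 : ζ' ^ (t : ℕ) = ζ' ^ ((t - s : Fin ℓ) : ℕ) * ζ' ^ (s : ℕ) := by
      rw [← pow_fin_add hζ'1, sub_add_cancel]
    have h3 : (ζ' ^ (r : ℕ)) ^ (t : ℕ) = (ζ' ^ ((t - s : Fin ℓ) : ℕ)) ^ (r : ℕ) *
        ζ' ^ ((r : ℕ) * (s : ℕ)) := by
      rw [← pow_mul, mul_comm, pow_mul, h2, mul_pow, ← pow_mul ζ' (s : ℕ), mul_comm (s : ℕ)]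
    have h4 : (ζ' ^ (p : ℕ)) ^ (t : ℕ) * (ζ ^ (p : ℕ)) ^ (s : ℕ) =
        (ζ' ^ (p : ℕ)) ^ ((t - s : Fin ℓ) : ℕ) := by
      have h5 : (ζ' ^ (p : ℕ)) ^ (t : ℕ) = (ζ' ^ (p : ℕ)) ^ ((t - s : Fin ℓ) : ℕ) *
          (ζ' ^ (p : ℕ)) ^ (s : ℕ) := by
        rw [← pow_mul, mul_comm, pow_mul, h2, mul_pow, ← pow_mul, ← pow_mul, ← pow_mul, ← pow_mul,
          mul_comm (p : ℕ), mul_comm (p : ℕ)]
      rw [h5, mul_assoc, ← mul_pow, ← mul_pow, mul_comm ζ', h, one_pow, one_pow, mul_one]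
    rw [h3, mul_pow (ζ ^ (p : ℕ)) β, mul_pow _ α]
    calc _ = ((ζ' ^ (p : ℕ)) ^ (t : ℕ) * (ζ ^ (p : ℕ)) ^ (s : ℕ)) * (α ^ (r : ℕ) * z r s *
        β ^ (s : ℕ) * ((ζ' ^ ((t - s : Fin ℓ) : ℕ)) ^ (r : ℕ) * ζ' ^ ((r : ℕ) * (s : ℕ)))) := by
          ring
      _ = _ := by rw [h4]; ring
  · rw [det_vandermonde_ne_zero_iff]
    have h6 : IsPrimitiveRoot ζ' ℓ := by
      refine ⟨hζ'1, fun k hk => hζ.dvd_of_pow_eq_one k ?_⟩
      have := congrArg (fun x => x ^ k) h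
      simpa [mul_pow, hk] using this
    intro p q hpq
    exact Fin.ext (h6.pow_inj p.2 q.2 hpq)

end

end Pool.Agent.Helper69.SB
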